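import Pool.Agent.Q145.LS.Stm
import Pool.Agent.Q261.SZ.FAR

/-!
# Project LS of helper145: the primes `p > Y` in the singular series (FARS)

Adapted from `Pool/Agent/Q261/SZ/FAR.lean`.
-/

set_option autoImplicit false
set_option linter.unusedVariables false

namespace Pool.Agent.Q261.LS

open Finset Filter
open Pool.Agent.Q145.SZ Pool.Agent.Q145.LS Pool.Agent.Q261.SZ

/-- the slopes with the form `x` -/
def As {K : ℕ} (a : Fin K → ℤ) : Fin (K + 1) → ℤ := Fin.cons 1 a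

/-- the constants with the form `x` -/
def Ss {K : ℕ} (s : Fin K → ℕ) : Fin (K + 1) → ℤ := Fin.cons 0 fun i => (s i : ℤ)

/-- the roots modulo `p` -/
def rt {K : ℕ} (a : Fin K → ℤ) (s : Fin K → ℕ) (p : ℕ) (i : Fin (K + 1)) : ℕ :=
  (-((Ss s i : ℤ) : ZMod p) * ((As a i : ℤ) : ZMod p)⁻¹).val

theorem As_ne {K : ℕ} {a : Fin K → ℤ} {p : ℕ} (hp : p.Prime) (ha : ∀ i, ¬ (p : ℤ) ∣ a i) (i : Fin (K + 1)) :
    ((As a i : ℤ) : ZMod p) ≠ 0 := by
  haveI := Fact.mk hp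
  rw [Ne, ZMod.intCast_zmod_eq_zero_iff_dvd]
  refine Fin.cases ?_ (fun j => ?_) i
  · show ¬ (p : ℤ) ∣ 1
    intro h
    have := Int.eq_one_of_dvd_one (by positivity) h
    have h2 := hp.one_lt
    omega
  · exact ha j

theorem rt_spec {K : ℕ} {a : Fin K → ℤ} (s : Fin K → ℕ) {p : ℕ} (hp : p.Prime) (ha : ∀ i, ¬ (p : ℤ) ∣ a i)
    (i : Fin (K + 1)) (n : ℕ) (hn : n < p) : (p : ℤ) ∣ As a i * n + Ss s i ↔ n = rt a s p i := by
  haveI := Fact.mk hp
  have h0 := As_ne hp ha i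
  rw [← ZMod.intCast_zmod_eq_zero_iff_dvd]
  push_cast
  unfold rt
  constructor
  · intro h
    have h1 : (n : ZMod p) = -((Ss s i : ℤ) : ZMod p) * ((As a i : ℤ) : ZMod p)⁻¹ := by
      field_simp
      linear_combination h
    rw [← h1, ZMod.val_natCast_of_lt hn]
  · intro h
    have h1 : (n : ZMod p) = -((Ss s i : ℤ) : ZMod p) * ((As a i : ℤ) : ZMod p)⁻¹ := by
      rw [h, ZMod.natCast_zmod_val]
    rw [h1]
    field_simp
    ring

theorem rt_lt {K : ℕ} (a : Fin K → ℤ) (s : Fin K → ℕ) {p : ℕ} (hp : p.Prime) (i : Fin (K + 1)) :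
    rt a s p i < p := by
  haveI := Fact.mk hp
  exact ZMod.val_lt _

theorem nuS_eq {K : ℕ} {a : Fin K → ℤ} (s : Fin K → ℕ) {p : ℕ} (hp : p.Prime) (ha : ∀ i, ¬ (p : ℤ) ∣ a i) :
    nuS a s p = nu (rt a s p) p := by
  unfold nuS nu
  congr 1
  ext n
  rw [mem_filter, mem_range, mem_image]
  constructor
  · rintro ⟨hn, h⟩
    rcases h with h | ⟨i, h⟩
    · refine ⟨0, mem_univ _, ?_⟩
      rw [Nat.mod_eq_of_lt (rt_lt a s hp 0)]
      refine ((rt_spec s hp ha 0 n hn).1 ?_).symm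
      rw [h]
      show (p : ℤ) ∣ 1 * ((0 : ℕ) : ℤ) + 0
      simp
    · refine ⟨i.succ, mem_univ _, ?_⟩
      rw [Nat.mod_eq_of_lt (rt_lt a s hp _)]
      exact ((rt_spec s hp ha i.succ n hn).1 h).symm
  · rintro ⟨i, -, h⟩
    rw [Nat.mod_eq_of_lt (rt_lt a s hp _)] at h
    have hn : n < p := by rw [← h]; exact rt_lt a s hp i
    refine ⟨hn, ?_⟩
    have h2 := (rt_spec s hp ha i n hn).2 h.symm
    revert h2
    refine Fin.cases (fun h2 => ?_) (fun j h2 => ?_) i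
    · left
      have h3 : (p : ℤ) ∣ 1 * (n : ℤ) + 0 := h2
      rw [one_mul, add_zero, Int.natCast_dvd_natCast] at h3
      exact Nat.eq_zero_of_dvd_of_lt h3 hn
    · exact Or.inr ⟨j, h2⟩

theorem locS_eq {K : ℕ} {a : Fin K → ℤ} (s : Fin K → ℕ) {p : ℕ} (hp : p.Prime) (ha : ∀ i, ¬ (p : ℤ) ∣ a i) :
    locS a s p = loc (rt a s p) p := by
  unfold locS loc
  rw [nuS_eq s hp ha]

/-- the determinant of two forms -/
def dt {K : ℕ} (a : Fin K → ℤ) (s : Fin K → ℕ) (i j : Fin (K + 1)) : ℤ := As a i * Ss s j - As a j * Ss s i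

theorem dvd_dt {K : ℕ} {a : Fin K → ℤ} (s : Fin K → ℕ) {p : ℕ} (hp : p.Prime) (ha : ∀ i, ¬ (p : ℤ) ∣ a i)
    (i j : Fin (K + 1)) (h : rt a s p i % p = rt a s p j % p) : (p : ℤ) ∣ dt a s i j := by
  rw [Nat.mod_eq_of_lt (rt_lt a s hp _), Nat.mod_eq_of_lt (rt_lt a s hp _)] at h
  have h1 := (rt_spec s hp ha i _ (rt_lt a s hp i)).2 rfl
  have h2 := (rt_spec s hp ha j _ (rt_lt a s hp i)).2 h
  have h3 : dt a s i j = As a i * (As a j * (rt a s p i : ℤ) + Ss s j) - As a j * (As a i * (rt a s p i : ℤ) + Ss s i) := by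
    unfold dt
    ring
  rw [h3]
  exact dvd_sub (h2.mul_left _) (h1.mul_left _)

theorem dt_ne {K : ℕ} {a : Fin K → ℤ} {s : Fin K → ℕ} (hs : ∀ i, 1 ≤ s i) (h : ND a s) (i j : Fin (K + 1))
    (hij : i ≠ j) : dt a s i j ≠ 0 := by
  unfold dt
  revert hij
  refine Fin.cases ?_ (fun i' => ?_) i
  · refine Fin.cases (fun h0 => absurd rfl h0) (fun j' _ => ?_) j
    show (1 : ℤ) * (s j' : ℤ) - a j' * 0 ≠ 0
    have := hs j'
    rw [one_mul, mul_zero, sub_zero]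
    exact_mod_cast (show s j' ≠ 0 by omega)
  · refine Fin.cases (fun _ => ?_) (fun j' hij => ?_) j
    · show a i' * 0 - (1 : ℤ) * (s i' : ℤ) ≠ 0
      have := hs i'
      rw [mul_zero, one_mul, zero_sub, neg_ne_zero]
      exact_mod_cast (show s i' ≠ 0 by omega)
    · show a i' * (s j' : ℤ) - a j' * (s i' : ℤ) ≠ 0
      rw [sub_ne_zero]
      exact h i' j' fun e => hij (by rw [e])

theorem As_le {K : ℕ} {a : Fin K → ℤ} {M : ℕ} (hM : 1 ≤ M) (ha : ∀ i, (a i).natAbs ≤ M) (i : Fin (K + 1)) :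
    |As a i| ≤ M := by
  refine Fin.cases ?_ (fun j => ?_) i
  · show |(1 : ℤ)| ≤ M
    rw [abs_one]
    exact_mod_cast hM
  · show |a j| ≤ M
    have := ha j
    rw [Int.abs_eq_natAbs]
    exact_mod_cast this

theorem Ss_le {K : ℕ} {s : Fin K → ℕ} {M : ℕ} (hs : ∀ i, s i ≤ M) (i : Fin (K + 1)) :
    |Ss s i| ≤ M := by
  refine Fin.cases ?_ (fun j => ?_) i
  · show |(0 : ℤ)| ≤ M
    rw [abs_zero]
    exact_mod_cast Nat.zero_le M
  · show |(s j : ℤ)| ≤ M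
    rw [Nat.abs_cast]
    exact_mod_cast hs j

theorem dt_le {K : ℕ} {a : Fin K → ℤ} {s : Fin K → ℕ} {M : ℕ} (hM : 1 ≤ M) (ha : ∀ i, (a i).natAbs ≤ M)
    (hs : ∀ i, s i ≤ M) (i j : Fin (K + 1)) : (dt a s i j).natAbs ≤ 2 * M ^ 2 := by
  have h1 : |dt a s i j| ≤ 2 * (M : ℤ) ^ 2 := by
    unfold dt
    have hM0 : (0 : ℤ) ≤ M := by positivity
    have e1 : |As a i * Ss s j| ≤ (M : ℤ) * M := by
      rw [abs_mul]
      exact mul_le_mul (As_le hM ha i) (Ss_le hs j) (abs_nonneg _) hM0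
    have e2 : |As a j * Ss s i| ≤ (M : ℤ) * M := by
      rw [abs_mul]
      exact mul_le_mul (As_le hM ha j) (Ss_le hs i) (abs_nonneg _) hM0
    calc |As a i * Ss s j - As a j * Ss s i| ≤ |As a i * Ss s j| + |As a j * Ss s i| := abs_sub _ _
      _ ≤ (M : ℤ) * M + M * M := add_le_add e1 e2
      _ = 2 * (M : ℤ) ^ 2 := by ring
  rw [Int.abs_eq_natAbs] at h1
  exact_mod_cast h1

theorem not_dvd {K : ℕ} {a : Fin K → ℤ} {Y : ℕ} (ha : ∀ i, a i ≠ 0 ∧ (a i).natAbs ≤ Y) {p : ℕ} (hp : Y < p)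
    (i : Fin K) : ¬ (p : ℤ) ∣ a i := by
  intro h
  have h1 := Int.natCast_dvd.1 h
  have h2 := Nat.le_of_dvd (Int.natAbs_pos.2 (ha i).1) h1
  have h3 := (ha i).2
  omega

theorem sum_kappaS {K : ℕ} (a : Fin K → ℤ) (s : Fin K → ℕ) {M Y w : ℕ} (hM : 3 ≤ M) (hY : 3 ≤ Y)
    (ha : ∀ i, a i ≠ 0 ∧ (a i).natAbs ≤ Y) (haM : ∀ i, (a i).natAbs ≤ M)
    (hs : ∀ i, 1 ≤ s i ∧ s i ≤ M) (hnd : ND a s) :
    ∑ p ∈ (Ioc Y w).filter Nat.Prime, (((K + 1 : ℕ) : ℝ) - nu (rt a s p) p) / p ≤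
      3 * ((K + 1 : ℕ) : ℝ) ^ 2 * Real.log M / Y := by
  classical
  have hY0 : (0 : ℝ) < Y := by exact_mod_cast (show 0 < Y by omega)
  have hM0 : (0 : ℝ) < M := by exact_mod_cast (show 0 < M by omega)
  have hlogM : 0 ≤ Real.log M := Real.log_natCast_nonneg M
  have h1 : ∀ p ∈ (Ioc Y w).filter Nat.Prime, (((K + 1 : ℕ) : ℝ) - nu (rt a s p) p) / p ≤
      (((univ : Finset (Fin (K + 1) × Fin (K + 1))).filter
        fun q => q.1 ≠ q.2 ∧ (p : ℤ) ∣ dt a s q.1 q.2).card : ℝ) / Y := by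
    intro p hp
    rw [mem_filter, mem_Ioc] at hp
    have hc := collide (rt a s p) p
    have hc2 : ((univ : Finset (Fin (K + 1) × Fin (K + 1))).filter
        fun q => q.1 ≠ q.2 ∧ rt a s p q.1 % p = rt a s p q.2 % p).card ≤
        ((univ : Finset (Fin (K + 1) × Fin (K + 1))).filter
        fun q => q.1 ≠ q.2 ∧ (p : ℤ) ∣ dt a s q.1 q.2).card := by
      refine card_le_card fun q hq => ?_
      rw [mem_filter] at hq ⊢
      exact ⟨hq.1, hq.2.1, dvd_dt s hp.2 (fun i => not_dvd ha hp.1.1 i) _ _ hq.2.2⟩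
    have hc' : ((K + 1 : ℕ) : ℝ) ≤ nu (rt a s p) p + ((univ : Finset (Fin (K + 1) × Fin (K + 1))).filter
        fun q => q.1 ≠ q.2 ∧ (p : ℤ) ∣ dt a s q.1 q.2).card := by
      have hc3 := hc.trans (Nat.add_le_add_left hc2 _)
      exact_mod_cast hc3
    have hYp : (Y : ℝ) ≤ p := by exact_mod_cast hp.1.1.le
    refine div_le_div₀ (Nat.cast_nonneg _) (by linarith) hY0 hYp
  refine (sum_le_sum h1).trans ?_
  rw [← sum_div]
  refine div_le_div_of_nonneg_right ?_ hY0.le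
  have h2 : ∑ p ∈ (Ioc Y w).filter Nat.Prime, (((univ : Finset (Fin (K + 1) × Fin (K + 1))).filter
        fun q => q.1 ≠ q.2 ∧ (p : ℤ) ∣ dt a s q.1 q.2).card : ℝ) =
      ∑ q : Fin (K + 1) × Fin (K + 1), ((((Ioc Y w).filter Nat.Prime).filter
        fun p : ℕ => q.1 ≠ q.2 ∧ (p : ℤ) ∣ dt a s q.1 q.2).card : ℝ) := by
    have h3 : ∀ p : ℕ, (((univ : Finset (Fin (K + 1) × Fin (K + 1))).filter
        fun q => q.1 ≠ q.2 ∧ (p : ℤ) ∣ dt a s q.1 q.2).card : ℝ) =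
        ∑ q : Fin (K + 1) × Fin (K + 1), if q.1 ≠ q.2 ∧ (p : ℤ) ∣ dt a s q.1 q.2 then (1 : ℝ) else 0 := by
      intro p
      rw [sum_boole]
    simp only [h3]
    rw [sum_comm]
    refine sum_congr rfl fun q _ => ?_
    rw [sum_boole]
  rw [h2]
  have h3 : ∀ q ∈ (univ : Finset (Fin (K + 1) × Fin (K + 1))), ((((Ioc Y w).filter Nat.Prime).filter
        fun p : ℕ => q.1 ≠ q.2 ∧ (p : ℤ) ∣ dt a s q.1 q.2).card : ℝ) ≤ 3 * Real.log M := by
    intro q _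
    by_cases hq : q.1 = q.2
    · rw [filter_false_of_mem]
      · rw [card_empty, Nat.cast_zero]
        positivity
      · intro p _ h
        exact h.1 hq
    · have hne : (dt a s q.1 q.2).natAbs ≠ 0 := by
        rw [Int.natAbs_ne_zero]
        exact dt_ne (fun i => (hs i).1) hnd _ _ hq
      have h4 := card_primes (dt a s q.1 q.2).natAbs hne (Y := (Y : ℝ))
        (by exact_mod_cast hY) (((Ioc Y w).filter Nat.Prime).filter
        fun p : ℕ => q.1 ≠ q.2 ∧ (p : ℤ) ∣ dt a s q.1 q.2) (fun p hp => by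
          rw [mem_filter, mem_filter, mem_Ioc] at hp
          exact ⟨hp.1.2, Int.natCast_dvd.1 hp.2.2, by exact_mod_cast hp.1.1.1.le⟩)
      refine h4.trans ?_
      have h5 : Real.log ((dt a s q.1 q.2).natAbs : ℝ) ≤ Real.log ((M : ℝ) ^ 3) := by
        refine Real.log_le_log (by exact_mod_cast Nat.pos_of_ne_zero hne) ?_
        have h6 := dt_le (M := M) (by omega) haM (fun i => (hs i).2) q.1 q.2
        have h7 : 2 * M ^ 2 ≤ M ^ 3 := by nlinarith [Nat.zero_le (M ^ 2)]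
        exact_mod_cast h6.trans h7
      rw [Real.log_pow] at h5
      exact_mod_cast h5
  refine (sum_le_card_nsmul _ _ _ h3).trans ?_
  rw [card_univ, Fintype.card_prod, Fintype.card_fin, nsmul_eq_mul]
  push_cast
  exact le_of_eq (by ring)

theorem sum_logS {K : ℕ} (a : Fin K → ℤ) (s : Fin K → ℕ) {M Y w : ℕ} (hM : 3 ≤ M) (hY : 8 * (K + 1) ^ 2 ≤ Y)
    (ha : ∀ i, a i ≠ 0 ∧ (a i).natAbs ≤ Y) (haM : ∀ i, (a i).natAbs ≤ M)
    (hs : ∀ i, 1 ≤ s i ∧ s i ≤ M) (hnd : ND a s) :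
    ∑ p ∈ (Ioc Y w).filter Nat.Prime, |Real.log (locS a s p)| ≤ 32 * ((K : ℝ) + 1) ^ 2 * Real.log M / Y := by
  have hlog : 1 ≤ Real.log M := by
    rw [Real.le_log_iff_exp_le (by exact_mod_cast (show 0 < M by omega))]
    have : (3 : ℝ) ≤ M := by exact_mod_cast hM
    linarith [Real.exp_one_lt_d9]
  have h1 : ∀ p ∈ (Ioc Y w).filter Nat.Prime, |Real.log (locS a s p)| ≤
      (((K + 1 : ℕ) : ℝ) - nu (rt a s p) p) / p + 2 * ((K + 1 : ℕ) : ℝ) ^ 2 * ((p : ℝ) ^ 2)⁻¹ := by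
    intro p hp
    rw [mem_filter, mem_Ioc] at hp
    have h2 : 2 * (K + 1) ≤ p := by nlinarith [hp.1.1]
    have h3 : K + 1 < p := by
      have := hp.2.two_le
      omega
    rw [← div_eq_mul_inv, locS_eq s hp.2 fun i => not_dvd ha hp.1.1 i]
    exact (log_loc (rt a s p) hp.2.two_le h2 (lt_of_le_of_lt (nu_le (rt a s p) p) h3)).2
  refine (sum_le_sum h1).trans ?_
  have hY3 : 3 ≤ Y := by
    have : 1 ≤ (K + 1) ^ 2 := Nat.one_le_pow _ _ (by omega)
    omega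
  have hY0 : (0 : ℝ) < Y := by exact_mod_cast (show 0 < Y by omega)
  rw [sum_add_distrib, ← mul_sum]
  have h2 := sum_kappaS a s (w := w) hM hY3 ha haM hs hnd
  have h3 := sum_inv_sq Y w (by omega) ((Ioc Y w).filter Nat.Prime) (filter_subset _ _)
  have h4 : 2 * ((K + 1 : ℕ) : ℝ) ^ 2 * ∑ p ∈ (Ioc Y w).filter Nat.Prime, ((p : ℝ) ^ 2)⁻¹ ≤
      2 * ((K + 1 : ℕ) : ℝ) ^ 2 * Real.log M / Y := by
    calc 2 * ((K + 1 : ℕ) : ℝ) ^ 2 * ∑ p ∈ (Ioc Y w).filter Nat.Prime, ((p : ℝ) ^ 2)⁻¹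
        ≤ 2 * ((K + 1 : ℕ) : ℝ) ^ 2 * (Y : ℝ)⁻¹ := by gcongr
      _ ≤ 2 * ((K + 1 : ℕ) : ℝ) ^ 2 * (Real.log M * (Y : ℝ)⁻¹) := by
          gcongr
          exact le_mul_of_one_le_left (by positivity) hlog
      _ = _ := by ring
  have h5 : 3 * ((K + 1 : ℕ) : ℝ) ^ 2 * Real.log M / Y + 2 * ((K + 1 : ℕ) : ℝ) ^ 2 * Real.log M / Y ≤
      32 * ((K : ℝ) + 1) ^ 2 * Real.log M / Y := by
    rw [← add_div]
    gcongr
    push_cast
    nlinarith [mul_nonneg (sq_nonneg ((K : ℝ) + 1)) (zero_le_one.trans hlog)]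
  linarith

/-- convergence of the product -/
theorem far_abs (F : ℕ → ℝ) (Y : ℕ) (B : ℝ) (hloc : ∀ p : ℕ, p.Prime → Y < p → 0 < F p)
    (hposY : 0 < ∏ p ∈ (Icc 1 Y).filter Nat.Prime, F p)
    (hsumF : ∀ n : ℕ, ∑ p ∈ (Ioc Y n).filter Nat.Prime, |Real.log (F p)| ≤ B) :
    ∃ L : ℝ, 0 < L ∧ Tendsto (fun w => ∏ p ∈ (Icc 1 w).filter Nat.Prime, F p) atTop (nhds L) ∧
      |Real.log (L / ∏ p ∈ (Icc 1 Y).filter Nat.Prime, F p)| ≤ B := by
  set f : ℕ → ℝ := fun p => if p.Prime ∧ Y < p then Real.log (F p) else 0 with hf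
  have hset : ∀ n : ℕ, (range (n + 1)).filter (fun p => p.Prime ∧ Y < p) =
      (Ioc Y n).filter Nat.Prime := by
    intro n
    ext p
    rw [mem_filter, mem_filter, mem_range, mem_Ioc]
    constructor
    · rintro ⟨h1, h2, h3⟩
      exact ⟨⟨h3, by omega⟩, h2⟩
    · rintro ⟨⟨h1, h2⟩, h3⟩
      exact ⟨by omega, h3, h1⟩
  have hsum : ∀ n : ℕ, ∑ p ∈ range (n + 1), f p =
      ∑ p ∈ (Ioc Y n).filter Nat.Prime, Real.log (F p) := by
    intro n
    rw [hf, ← sum_filter, hset]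
  have habs : ∀ n : ℕ, ∑ p ∈ range n, |f p| ≤ B := by
    intro n
    have h1 : ∑ p ∈ range n, |f p| ≤ ∑ p ∈ range (n + 1), |f p| :=
      sum_le_sum_of_subset_of_nonneg (range_mono (Nat.le_succ n)) fun _ _ _ => abs_nonneg _
    refine h1.trans ?_
    have h2 : ∑ p ∈ range (n + 1), |f p| =
        ∑ p ∈ (Ioc Y n).filter Nat.Prime, |Real.log (F p)| := by
      rw [← hset, sum_filter]
      refine sum_congr rfl fun p _ => ?_
      rw [hf]
      dsimp only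
      split_ifs
      · rfl
      · exact abs_zero
    rw [h2]
    exact hsumF n
  have hS : Summable fun p => |f p| := summable_of_sum_range_le (fun _ => abs_nonneg _) habs
  have hS' : Summable f := hS.of_abs
  refine ⟨(∏ p ∈ (Icc 1 Y).filter Nat.Prime, F p) * Real.exp (∑' p, f p), mul_pos hposY (Real.exp_pos _), ?_, ?_⟩
  · have h1 : Tendsto (fun n : ℕ => ∑ p ∈ range (n + 1), f p) atTop (nhds (∑' p, f p)) :=
      (tendsto_add_atTop_iff_nat 1).2 hS'.hasSum.tendsto_sum_nat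
    have h2 := ((Real.continuous_exp.tendsto _).comp h1).const_mul (∏ p ∈ (Icc 1 Y).filter Nat.Prime, F p)
    refine h2.congr' ?_
    filter_upwards [eventually_ge_atTop Y] with w hw
    rw [Function.comp_apply, hsum, Real.exp_sum]
    have h3 : (Icc 1 w).filter Nat.Prime = (Icc 1 Y).filter Nat.Prime ∪ (Ioc Y w).filter Nat.Prime := by
      rw [← filter_union]
      congr 1
      ext p
      rw [mem_union, mem_Icc, mem_Icc, mem_Ioc]
      omega
    have h4 : Disjoint ((Icc 1 Y).filter Nat.Prime) ((Ioc Y w).filter Nat.Prime) := by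
      refine disjoint_filter_filter ?_
      rw [disjoint_left]
      intro p h5 h6
      rw [mem_Icc] at h5
      rw [mem_Ioc] at h6
      omega
    rw [h3, prod_union h4]
    congr 1
    refine prod_congr rfl fun p hp => ?_
    rw [mem_filter, mem_Ioc] at hp
    exact Real.exp_log (hloc p hp.2 hp.1.1)
  · rw [mul_div_cancel_left₀ _ hposY.ne', Real.log_exp]
    have h1 : |∑' p, f p| ≤ ∑' p, |f p| := by
      have := norm_tsum_le_tsum_norm (f := f) (by simpa [Real.norm_eq_abs] using hS)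
      simpa [Real.norm_eq_abs] using this
    exact h1.trans (Real.tsum_le_of_sum_range_le (fun _ => abs_nonneg _) habs)

/-- **LS-FARS** -/
theorem t_FARS : S_FARS := by
  intro M Y K a s hM hY _ has hnd hadm
  have ha : ∀ i, a i ≠ 0 ∧ (a i).natAbs ≤ Y := fun i => ⟨(has i).1, (has i).2.1⟩
  have haM : ∀ i, (a i).natAbs ≤ M := fun i => (has i).2.2.1
  have hs : ∀ i, 1 ≤ s i ∧ s i ≤ M := fun i => (has i).2.2.2
  have hposY : 0 < singPS a s Y := by
    unfold singPS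
    refine prod_pos fun p hp => ?_
    rw [mem_filter, mem_Icc] at hp
    have hp0 : (0 : ℝ) < p := by exact_mod_cast hp.2.pos
    have h1 : (nuS a s p : ℝ) < p := by exact_mod_cast hadm p hp.2 hp.1.2
    have h2 : (1 : ℝ) < p := by exact_mod_cast hp.2.one_lt
    have h3 : 0 < 1 - (nuS a s p : ℝ) / p := by
      rw [sub_pos, div_lt_one hp0]
      exact h1
    have h4 : 0 < 1 - 1 / (p : ℝ) := by
      rw [sub_pos, div_lt_one hp0]
      exact h2
    unfold locS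
    positivity
  have hloc : ∀ p : ℕ, p.Prime → Y < p → 0 < locS a s p := by
    intro p hp hYp
    have h2 : 2 * (K + 1) ≤ p := by nlinarith
    have h3 : K + 1 < p := by
      have := hp.two_le
      omega
    rw [locS_eq s hp fun i => not_dvd ha hYp i]
    exact (log_loc (rt a s p) hp.two_le h2 (lt_of_le_of_lt (nu_le (rt a s p) p) h3)).1
  obtain ⟨L, hL0, hL1, hL2⟩ := far_abs (locS a s) Y (32 * ((K : ℝ) + 1) ^ 2 * Real.log M / Y) hloc hposY
    (fun n => sum_logS a s hM hY ha haM hs hnd)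
  have hlim : Tendsto (singPS a s) atTop (nhds L) := hL1
  have hsing : singS a s = L := hlim.limUnder_eq
  rw [hsing]
  exact ⟨hposY, hL0, hlim, hL2⟩

end Pool.Agent.Q261.LS

theorem Pool.Agent.Q145.LS.t_FARS : Pool.Agent.Q145.LS.S_FARS := Pool.Agent.Q261.LS.t_FARS
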