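import Pool.Agent.Q261.LS.FARS
import Pool.Agent.Q261.SZ.TAIL

/-!
# Project LS of helper145: the singular series is close to its partial product for most constants (TAILS)

Adapted from `Pool/Agent/Q261/SZ/TAIL.lean`.
-/

set_option autoImplicit false
set_option linter.unusedVariables false

namespace Pool.Agent.Q261.LS

open Finset Filter
open Pool.Agent.Q145.SZ Pool.Agent.Q145.LS Pool.Agent.Q261.SZ

theorem card_bcl {W : ℕ} [NeZero W] (X : ℕ) (a : ℤ) (β : ZMod W) :
    (bcl X a β).card = (cls (a.natAbs * X) (β - ((lo X a : ℕ) : ZMod W))).card := by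
  symm
  refine card_bij (fun s _ => lo X a + s) ?_ ?_ ?_
  · intro s hs
    unfold cls at hs
    rw [mem_filter, mem_Icc] at hs
    unfold bcl bx
    rw [mem_filter, mem_Ioc]
    refine ⟨⟨by omega, by omega⟩, ?_⟩
    push_cast
    rw [hs.2]
    ring
  · intro s _ t _ h
    exact Nat.add_left_cancel h
  · intro s hs
    unfold bcl bx at hs
    rw [mem_filter, mem_Ioc] at hs
    refine ⟨s - lo X a, ?_, by omega⟩
    unfold cls
    rw [mem_filter, mem_Icc]
    refine ⟨⟨by omega, by omega⟩, ?_⟩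
    rw [Nat.cast_sub (by omega), hs.2]

theorem card_bcl_ge {W : ℕ} [NeZero W] (X : ℕ) (hX : 2 * (W : ℝ) ≤ X) (a : ℤ) (ha : a ≠ 0) (β : ZMod W) :
    (X : ℝ) / (2 * W) ≤ ((bcl X a β).card : ℝ) := by
  have hW0 : (0 : ℝ) < W := by exact_mod_cast Nat.pos_of_ne_zero (NeZero.ne W)
  have hX0 : (0 : ℝ) < X := by linarith
  rw [card_bcl]
  have h1 := (abs_le.1 (card_cls (a.natAbs * X) (β - ((lo X a : ℕ) : ZMod W)))).1
  have h2 : (1 : ℝ) ≤ X / (2 * W) := by
    rw [le_div_iff₀ (by positivity)]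
    linarith
  have h3 : (X : ℝ) / W = 2 * (X / (2 * W)) := by field_simp
  have h4 : (X : ℝ) / W ≤ ((a.natAbs * X : ℕ) : ℝ) / W := by
    refine div_le_div_of_nonneg_right ?_ hW0.le
    have h5 : 1 ≤ a.natAbs := Int.natAbs_pos.2 ha
    exact_mod_cast Nat.le_mul_of_pos_left X h5
  linarith

open Classical in
/-- the tuples with two proportional forms -/
theorem nonND {W : ℕ} [NeZero W] (X K : ℕ) (hX : 2 * (W : ℝ) ≤ X) (a : Fin K → ℤ) (ha : ∀ i, a i ≠ 0)
    (b : Fin K → ZMod W) :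
    (((SbS X a b).filter fun s => ¬ ND a s).card : ℝ) ≤
      (K : ℝ) ^ 2 * (2 * W / X) * (SbS X a b).card := by
  have hW0 : (0 : ℝ) < W := by exact_mod_cast Nat.pos_of_ne_zero (NeZero.ne W)
  have hX0 : (0 : ℝ) < X := by linarith
  have hC : ∀ j, (X : ℝ) / (2 * W) ≤ ((bcl X (a j) (b j)).card : ℝ) := fun j =>
    card_bcl_ge X hX (a j) (ha j) (b j)
  have hpair : ∀ q : Fin K × Fin K, q.1 ≠ q.2 →
      (((SbS X a b).filter fun s => a q.1 * s q.2 = a q.2 * s q.1).card : ℝ) ≤ (2 * W / X) * (SbS X a b).card := by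
    rintro ⟨i, j⟩ hij
    dsimp only at hij ⊢
    have h1 : ((SbS X a b).filter fun s => a i * s j = a j * s i).card ≤
        ∏ k ∈ univ.erase j, (bcl X (a k) (b k)).card := by
      have h2 : ((SbS X a b).filter fun s => a i * s j = a j * s i).card ≤
          (Fintype.piFinset (Function.update (fun k => bcl X (a k) (b k)) j {0})).card := by
        refine card_le_card_of_injOn (fun s => Function.update s j 0) ?_ ?_
        · intro s hs
          rw [mem_coe, mem_filter] at hs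
          rw [mem_coe, Fintype.mem_piFinset]
          have h3 := hs.1
          unfold SbS at h3
          rw [Fintype.mem_piFinset] at h3
          intro k
          by_cases hk : k = j
          · subst hk
            simp
          · simp only [Function.update_of_ne hk]
            exact h3 k
        · intro s hs t ht hst
          rw [mem_coe, mem_filter] at hs ht
          have h3 : ∀ k, k ≠ j → s k = t k := by
            intro k hk
            have := congrFun hst k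
            simpa only [Function.update_of_ne hk] using this
          ext k
          by_cases hk : k = j
          · subst hk
            have h4 : a i * (s k : ℤ) = a i * (t k : ℤ) := by
              rw [hs.2, ht.2, h3 i hij]
            exact_mod_cast mul_left_cancel₀ (ha i) h4
          · exact h3 k hk
      refine h2.trans (le_of_eq ?_)
      rw [Fintype.card_piFinset, ← mul_prod_erase univ _ (mem_univ j), Function.update_self,
        card_singleton, one_mul]
      refine prod_congr rfl fun k hk => ?_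
      rw [Function.update_of_ne (mem_erase.1 hk).1]
    have h2 : ((SbS X a b).card : ℝ) = (bcl X (a j) (b j)).card * ∏ k ∈ univ.erase j, ((bcl X (a k) (b k)).card : ℝ) := by
      unfold SbS
      rw [Fintype.card_piFinset, ← mul_prod_erase univ _ (mem_univ j)]
      push_cast
      rfl
    have h3 : (((SbS X a b).filter fun s => a i * s j = a j * s i).card : ℝ) ≤
        ∏ k ∈ univ.erase j, ((bcl X (a k) (b k)).card : ℝ) := by exact_mod_cast h1
    have h4 : 1 ≤ (2 * (W : ℝ) / X) * (bcl X (a j) (b j)).card := by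
      have h5 := hC j
      calc (1 : ℝ) = (2 * (W : ℝ) / X) * (X / (2 * W)) := by field_simp
        _ ≤ _ := by gcongr
    rw [h2, ← mul_assoc]
    refine h3.trans (le_mul_of_one_le_left (by positivity) h4)
  have hsub : (SbS X a b).filter (fun s => ¬ ND a s) ⊆
      ((univ : Finset (Fin K × Fin K)).filter fun q => q.1 ≠ q.2).biUnion
        fun q => (SbS X a b).filter fun s => a q.1 * s q.2 = a q.2 * s q.1 := by
    intro s hs
    rw [mem_filter] at hs
    obtain ⟨hs1, hs2⟩ := hs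
    unfold ND at hs2
    push Not at hs2
    obtain ⟨i, j, hne, hij⟩ := hs2
    rw [mem_biUnion]
    exact ⟨(i, j), mem_filter.2 ⟨mem_univ _, hne⟩, mem_filter.2 ⟨hs1, hij⟩⟩
  have h1 : (((SbS X a b).filter fun s => ¬ ND a s).card : ℝ) ≤
      ∑ q ∈ (univ : Finset (Fin K × Fin K)).filter fun q => q.1 ≠ q.2,
        (((SbS X a b).filter fun s => a q.1 * s q.2 = a q.2 * s q.1).card : ℝ) := by
    exact_mod_cast (card_le_card hsub).trans card_biUnion_le
  refine h1.trans ((sum_le_card_nsmul _ _ _ fun q hq => hpair q (mem_filter.1 hq).2).trans ?_)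
  rw [nsmul_eq_mul, mul_assoc]
  refine mul_le_mul_of_nonneg_right ?_ (by positivity)
  have h2 : ((univ : Finset (Fin K × Fin K)).filter fun q => q.1 ≠ q.2).card ≤ K ^ 2 := by
    refine (card_filter_le _ _).trans ?_
    rw [card_univ, Fintype.card_prod, Fintype.card_fin, sq]
  exact_mod_cast h2

theorem singPS_split {K : ℕ} (a : Fin K → ℤ) (s : Fin K → ℕ) {z Y : ℕ} (h : z ≤ Y) :
    singPS a s Y = singPS a s z * ∏ p ∈ (Ioc z Y).filter Nat.Prime, locS a s p := by
  unfold singPS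
  have h3 : (Icc 1 Y).filter Nat.Prime = (Icc 1 z).filter Nat.Prime ∪ (Ioc z Y).filter Nat.Prime := by
    rw [← filter_union]
    congr 1
    ext p
    rw [mem_union, mem_Icc, mem_Icc, mem_Ioc]
    omega
  have h4 : Disjoint ((Icc 1 z).filter Nat.Prime) ((Ioc z Y).filter Nat.Prime) := by
    refine disjoint_filter_filter ?_
    rw [disjoint_left]
    intro p h5 h6
    rw [mem_Icc] at h5
    rw [mem_Ioc] at h6
    omega
  rw [h3, prod_union h4]

theorem singS_zero {K : ℕ} (a : Fin K → ℤ) (s : Fin K → ℕ) {z p : ℕ} (hp : p.Prime) (hpz : p ≤ z)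
    (hnu : ¬ nuS a s p < p) : singPS a s z = 0 ∧ singS a s = 0 := by
  have h1 : nuS a s p = p := by
    refine le_antisymm ?_ (not_lt.1 hnu)
    unfold nuS
    exact (card_filter_le _ _).trans (le_of_eq (card_range p))
  have h2 : locS a s p = 0 := by
    unfold locS
    have : (p : ℝ) ≠ 0 := by exact_mod_cast hp.ne_zero
    rw [h1, div_self this, sub_self, zero_div]
  have h3 : ∀ w, z ≤ w → singPS a s w = 0 := by
    intro w hw
    unfold singPS
    refine prod_eq_zero (mem_filter.2 ⟨mem_Icc.2 ⟨hp.one_le, hpz.trans hw⟩, hp⟩) h2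
  refine ⟨h3 z le_rfl, ?_⟩
  unfold singS
  refine Tendsto.limUnder_eq (tendsto_const_nhds.congr' ?_)
  filter_upwards [eventually_ge_atTop z] with w hw
  exact (h3 w hw).symm

theorem loc_half {K : ℕ} (s : Fin K → ℕ) {p : ℕ} (g1 : p.Prime) (g2 : 8 * K ≤ p) :
    0 < loc s p ∧ |loc s p - 1| ≤ 1 / 2 := by
  have hp0 : (0 : ℝ) < p := by exact_mod_cast g1.pos
  have k1 := (loc_bds s g1 g2).2
  have k2 : 7 / 8 ≤ loc s p := by
    have hν : (nu s p : ℝ) ≤ K := by exact_mod_cast nu_le s p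
    have hKr : 8 * (K : ℝ) ≤ p := by exact_mod_cast g2
    have e1 : (nu s p : ℝ) / p ≤ 1 / 8 := by
      rw [div_le_div_iff₀ hp0 (by norm_num)]
      linarith
    have hp2 : (2 : ℝ) ≤ p := by exact_mod_cast g1.two_le
    have e2 : 1 / (p : ℝ) ≤ 1 / 2 := one_div_le_one_div_of_le two_pos hp2
    have e3 : 0 < 1 / (p : ℝ) := by positivity
    have e4 : 0 < (1 - 1 / (p : ℝ)) ^ K := pow_pos (by linarith) K
    have e5 : (1 - 1 / (p : ℝ)) ^ K ≤ 1 := pow_le_one₀ (by linarith) (by linarith)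
    unfold loc
    rw [le_div_iff₀ e4]
    nlinarith
  refine ⟨by linarith, ?_⟩
  rw [abs_le]
  constructor <;> linarith

theorem good_caseS (hFAR : S_FARS) {K : ℕ} (a : Fin K → ℤ) (s : Fin K → ℕ) {M Y z : ℕ} {δ : ℝ} (hδ : δ ≤ 1 / 8)
    (hzY : z ≤ Y) (hK : 8 * (K + 1) ≤ z) (ha : ∀ i, a i ≠ 0 ∧ (a i).natAbs ≤ z) (hM : 3 ≤ M)
    (hY1 : 8 * (K + 1) ^ 2 ≤ Y)
    (hY2 : 32 * ((K : ℝ) + 1) ^ 2 * Real.log M ≤ Y) (hY3 : 32 * ((K : ℝ) + 1) ^ 2 * Real.log M / Y ≤ δ)
    (hs : ∀ i, (a i).natAbs ≤ M ∧ 1 ≤ s i ∧ s i ≤ M) (hnd : ND a s)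
    (h1 : |∑ p ∈ (Ioc z Y).filter Nat.Prime, (locS a s p - 1)| ≤ δ)
    (h2 : ∑ p ∈ (Ioc z Y).filter Nat.Prime, (locS a s p - 1) ^ 2 ≤ δ) :
    |singS a s - singPS a s z| ≤ 8 * δ * singPS a s z := by
  by_cases hA : ∀ p : ℕ, p.Prime → p ≤ z → nuS a s p < p
  · set P := (Ioc z Y).filter Nat.Prime with hP
    have hPm : ∀ p ∈ P, p.Prime ∧ 8 * (K + 1) ≤ p ∧ K + 1 < p ∧ z < p := by
      intro p hp
      rw [hP, mem_filter, mem_Ioc] at hp
      refine ⟨hp.2, by omega, by omega, hp.1.1⟩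
    have hloc : ∀ p ∈ P, 0 < locS a s p ∧ |locS a s p - 1| ≤ 1 / 2 := by
      intro p hp
      obtain ⟨g1, g2, g3, g4⟩ := hPm p hp
      rw [locS_eq s g1 fun i => not_dvd ha g4 i]
      exact loc_half _ g1 g2
    have hA' : ∀ p : ℕ, p.Prime → p ≤ Y → nuS a s p < p := by
      intro p hp hpY
      rcases le_or_gt p z with h | h
      · exact hA p hp h
      · have := (hPm p (mem_filter.2 ⟨mem_Ioc.2 ⟨h, hpY⟩, hp⟩)).2.2.1
        rw [nuS_eq s hp fun i => not_dvd ha h i]
        exact lt_of_le_of_lt (nu_le _ p) this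
    obtain ⟨f1, f2, _, f4⟩ := hFAR M Y K a s hM hY1 hY2
      (fun i => ⟨(ha i).1, (ha i).2.trans hzY, (hs i).1, (hs i).2⟩) hnd hA'
    have hsplit := singPS_split a s hzY
    rw [← hP] at hsplit
    have hprod : 0 < ∏ p ∈ P, locS a s p := prod_pos fun p hp => (hloc p hp).1
    have hz0 : 0 < singPS a s z := by
      rw [hsplit] at f1
      exact (pos_iff_pos_of_mul_pos f1).2 hprod
    have hlogY : Real.log (singPS a s Y) = Real.log (singPS a s z) + ∑ p ∈ P, Real.log (locS a s p) := by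
      rw [hsplit, Real.log_mul hz0.ne' hprod.ne', Real.log_prod]
      exact fun p hp => (hloc p hp).1.ne'
    set t := Real.log (singS a s / singPS a s z) with ht
    have ht1 : t = Real.log (singS a s / singPS a s Y) + ∑ p ∈ P, Real.log (locS a s p) := by
      rw [ht, Real.log_div f2.ne' hz0.ne', Real.log_div f2.ne' f1.ne', hlogY]
      ring
    have ht2 : ∑ p ∈ P, Real.log (locS a s p) =
        ∑ p ∈ P, (Real.log (1 + (locS a s p - 1)) - (locS a s p - 1)) + ∑ p ∈ P, (locS a s p - 1) := by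
      rw [← sum_add_distrib]
      refine sum_congr rfl fun p _ => ?_
      rw [sub_add_cancel]
      congr 1
      ring
    have ht3 : |∑ p ∈ P, (Real.log (1 + (locS a s p - 1)) - (locS a s p - 1))| ≤ 2 * δ := by
      refine (abs_sum_le_sum_abs _ _).trans ?_
      refine (sum_le_sum fun p hp => log_one_add (hloc p hp).2).trans ?_
      rw [← mul_sum]
      linarith
    have ht4 : |t| ≤ 4 * δ := by
      rw [ht1, ht2]
      have a1 := abs_add_le (Real.log (singS a s / singPS a s Y))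
        (∑ p ∈ P, (Real.log (1 + (locS a s p - 1)) - (locS a s p - 1)) + ∑ p ∈ P, (locS a s p - 1))
      have a2 := abs_add_le (∑ p ∈ P, (Real.log (1 + (locS a s p - 1)) - (locS a s p - 1)))
        (∑ p ∈ P, (locS a s p - 1))
      linarith
    have hexp : singS a s = singPS a s z * Real.exp t := by
      rw [ht, Real.exp_log (div_pos f2 hz0)]
      field_simp
    have ht5 : |Real.exp t - 1| ≤ 2 * |t| := Real.abs_exp_sub_one_le (by linarith)
    have h6 : singS a s - singPS a s z = singPS a s z * (Real.exp t - 1) := by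
      rw [hexp]
      ring
    rw [h6, abs_mul, abs_of_pos hz0, mul_comm]
    refine mul_le_mul_of_nonneg_right ?_ hz0.le
    linarith
  · push Not at hA
    obtain ⟨p, hp, hpz, hnu⟩ := hA
    obtain ⟨e1, e2⟩ := singS_zero a s hp hpz (not_lt.2 hnu)
    rw [e1, e2]
    simp

theorem bcl_le {W : ℕ} [NeZero W] {X z : ℕ} {a : ℤ} (ha : a.natAbs ≤ z) {β : ZMod W} {s : ℕ}
    (hs : s ∈ bcl X a β) : 1 ≤ s ∧ s ≤ z * (4 * X + 1) := by
  unfold bcl bx at hs
  rw [mem_filter, mem_Ioc] at hs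
  obtain ⟨⟨h1, h2⟩, -⟩ := hs
  refine ⟨by omega, h2.trans ?_⟩
  have h3 : lo X a ≤ a.natAbs * (3 * X + 1) := by
    unfold lo
    split_ifs
    · exact Nat.zero_le _
    · exact le_rfl
  calc lo X a + a.natAbs * X ≤ a.natAbs * (3 * X + 1) + a.natAbs * X := Nat.add_le_add_right h3 _
    _ = a.natAbs * (4 * X + 1) := by ring
    _ ≤ z * (4 * X + 1) := Nat.mul_le_mul_right _ ha

theorem tail_genS (hFAR : S_FARS) {C₁ : ℝ} (hC : 0 < C₁) {δ : ℝ} (hδ0 : 0 < δ) (hδ : δ ≤ 1 / 8)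
    {W : ℕ} [NeZero W] (z X K : ℕ)
    (hV : ∀ (Y : ℕ) (a : Fin K → ℤ), (∀ i, a i ≠ 0 ∧ (a i).natAbs ≤ z) → 16 * (K + 1) * (Y : ℝ) ^ 4 * W ≤ X →
      ∀ b : Fin K → ZMod (W),
      ∑ s ∈ SbS X a b, (∑ p ∈ (Ioc z Y).filter Nat.Prime, (locS a s p - 1)) ^ 2 ≤ (C₁ / Real.log z + 16 * (K + 1) * (Y : ℝ) ^ 4 * W / X) * (SbS X a b).card ∧
      ∑ s ∈ SbS X a b, ∑ p ∈ (Ioc z Y).filter Nat.Prime, (locS a s p - 1) ^ 2 ≤ (C₁ / Real.log z + 16 * (K + 1) * (Y : ℝ) ^ 4 * W / X) * (SbS X a b).card)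
    (hX3 : 3 ≤ X)
    (hXL : 262144 * Real.log X ^ 36 ≤ X) (hXδ : 1 / δ ≤ Real.log X) (hz : 2 ≤ z)
    (hK : 8 * (K + 1) ≤ z) (a : Fin K → ℤ) (ha : ∀ i, a i ≠ 0 ∧ (a i).natAbs ≤ z)
    (hzX : (z : ℝ) ≤ Real.log X) (hW : (W : ℝ) ^ 2 ≤ X) (b : Fin K → ZMod (W)) :
    (((SbS X a b).filter fun s => ¬ (|singS a s - singPS a s z| ≤ 8 * δ * singPS a s z)).card : ℝ) ≤
      ((C₁ + 1) * (1 / δ ^ 2 + 1 / δ) + 1) / Real.log z * (SbS X a b).card := by
  set L := Real.log X with hL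
  have hX0 : (0 : ℝ) < X := by exact_mod_cast (show 0 < X by omega)
  have hL1 : 1 ≤ L := by
    rw [hL, Real.le_log_iff_exp_le hX0]
    have : (3 : ℝ) ≤ X := by exact_mod_cast hX3
    linarith [Real.exp_one_lt_d9]
  set R := √(X : ℝ) with hR
  have hR2 : R ^ 2 = X := Real.sq_sqrt hX0.le
  have hR0 : 0 < R := Real.sqrt_pos.2 hX0
  have hRL : 512 * L ^ 18 ≤ R := by
    refine abs_le_of_sq_le_sq' ?_ hR0.le |>.2
    rw [hR2]
    have h1 : (512 * L ^ 18) ^ 2 = 262144 * L ^ 36 := by ring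
    rw [h1]
    exact hXL
  have hWR : (W : ℝ) ≤ R := by
    refine abs_le_of_sq_le_sq' ?_ hR0.le |>.2
    rw [hR2]
    exact hW
  have hpw : ∀ a c : ℕ, a ≤ c → L ^ a ≤ L ^ c := fun a c h => pow_le_pow_right₀ hL1 h
  have hL0 : 0 < L := by linarith
  have hz2 : (2 : ℝ) ≤ z := by exact_mod_cast hz
  have hlogz : 0 < Real.log z := Real.log_pos (by linarith)
  have hlogzL : Real.log z ≤ L := by
    refine (Real.log_le_self (by linarith)).trans hzX
  set Y := ⌈L ^ 4⌉₊ with hY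
  have hY1 : L ^ 4 ≤ Y := Nat.le_ceil _
  have hY2 : (Y : ℝ) ≤ 2 * L ^ 4 := by
    have := (Nat.ceil_lt_add_one (show 0 ≤ L ^ 4 by positivity)).le
    have h1 : 1 ≤ L ^ 4 := one_le_pow₀ hL1
    linarith
  have hKr : (0 : ℝ) ≤ K := Nat.cast_nonneg _
  have hKL : 8 * ((K : ℝ) + 1) ≤ L := by
    have : 8 * ((K : ℝ) + 1) ≤ z := by exact_mod_cast hK
    linarith
  have hzY : z ≤ Y := by
    have h1 : (z : ℝ) ≤ Y := by
      have := hpw 1 4 (by norm_num)
      rw [pow_one] at this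
      linarith
    exact_mod_cast h1
  have hK2 : 64 * ((K : ℝ) + 1) ^ 2 ≤ L ^ 2 := by
    have h1 : (8 * ((K : ℝ) + 1)) ^ 2 ≤ L ^ 2 := pow_le_pow_left₀ (by positivity) hKL 2
    linarith [h1, (by ring : (8 * ((K : ℝ) + 1)) ^ 2 = 64 * ((K : ℝ) + 1) ^ 2)]
  have hYK : 8 * (K + 1) ^ 2 ≤ Y := by
    have h1 : 8 * ((K : ℝ) + 1) ^ 2 ≤ Y := by
      have := hpw 2 4 (by norm_num)
      have h2 : 0 ≤ ((K : ℝ) + 1) ^ 2 := sq_nonneg _
      linarith
    exact_mod_cast h1
  -- the bound of the constants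
  set M := X ^ 2 with hMdef
  have hlogM : Real.log (M : ℝ) = 2 * L := by
    rw [hMdef]
    push_cast
    rw [Real.log_pow]
    push_cast
    rfl
  have hM3 : 3 ≤ M := by
    rw [hMdef]
    nlinarith
  have hzM : z * (4 * X + 1) ≤ M := by
    have h1 : (z : ℝ) * (4 * X + 1) ≤ (X : ℝ) ^ 2 := by
      have h2 : 5 * L ≤ X := by
        have h3 := hpw 1 36 (by norm_num)
        rw [pow_one] at h3
        have h4 : 0 < L ^ 36 := by positivity
        linarith
      have h3 : (1 : ℝ) ≤ X := by linarith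
      calc (z : ℝ) * (4 * X + 1) ≤ L * (5 * X) := by
            refine mul_le_mul hzX (by linarith) (by positivity) hL0.le
        _ = 5 * L * X := by ring
        _ ≤ X * X := mul_le_mul_of_nonneg_right h2 hX0.le
        _ = (X : ℝ) ^ 2 := by ring
    rw [hMdef]
    exact_mod_cast h1
  have hzM' : z ≤ M := le_trans (Nat.le_mul_of_pos_right z (by omega)) hzM
  have hYKL : 32 * ((K : ℝ) + 1) ^ 2 * Real.log M ≤ L ^ 3 := by
    rw [hlogM]
    calc 32 * ((K : ℝ) + 1) ^ 2 * (2 * L) = 64 * ((K : ℝ) + 1) ^ 2 * L := by ring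
      _ ≤ L ^ 2 * L := by gcongr
      _ = L ^ 3 := by ring
  have hYKL' : 32 * ((K : ℝ) + 1) ^ 2 * Real.log M ≤ Y := by
    have := hpw 3 4 (by norm_num)
    linarith
  have hY0 : (0 : ℝ) < Y := lt_of_lt_of_le (by positivity) hY1
  have hYδ : 32 * ((K : ℝ) + 1) ^ 2 * Real.log M / Y ≤ δ := by
    rw [div_le_iff₀ hY0]
    have h1 : 1 ≤ δ * L := by
      rw [div_le_iff₀ (by positivity)] at hXδ
      linarith
    have h2 : L ^ 3 ≤ δ * L ^ 4 := by
      have h3 : 0 < L ^ 3 := by positivity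
      have h4 : L ^ 3 * 1 ≤ L ^ 3 * (δ * L) := mul_le_mul_of_nonneg_left h1 h3.le
      have h5 : L ^ 3 * (δ * L) = δ * L ^ 4 := by ring
      linarith
    have h3 : δ * L ^ 4 ≤ δ * Y := by gcongr
    linarith
  -- the error of VARS
  have hKL2 : (K : ℝ) + 1 ≤ 2 * L := by linarith
  have hW0 : (0 : ℝ) < W := by exact_mod_cast Nat.pos_of_ne_zero (NeZero.ne W)
  have hE : 16 * (K + 1) * (Y : ℝ) ^ 4 * W ≤ 512 * L ^ 17 * R := by
    calc 16 * ((K : ℝ) + 1) * (Y : ℝ) ^ 4 * W ≤ 16 * (2 * L) * (2 * L ^ 4) ^ 4 * R := by gcongr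
      _ = 512 * L ^ 17 * R := by ring
  have hEX : 16 * (K + 1) * (Y : ℝ) ^ 4 * W ≤ X := by
    refine hE.trans ?_
    rw [← hR2, sq]
    have := hpw 17 18 (by norm_num)
    gcongr
    linarith
  have hEL : 16 * (K + 1) * (Y : ℝ) ^ 4 * W / X ≤ 1 / Real.log z := by
    calc 16 * (K + 1) * (Y : ℝ) ^ 4 * W / X ≤ 512 * L ^ 17 * R / X := by gcongr
      _ = 512 * L ^ 17 / R := by
        rw [← hR2]
        field_simp
      _ ≤ 1 / L := by
        rw [div_le_div_iff₀ hR0 hL0]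
        calc 512 * L ^ 17 * L = 512 * L ^ 18 := by ring
          _ ≤ 1 * R := by linarith
      _ ≤ 1 / Real.log z := one_div_le_one_div_of_le hlogz hlogzL
  obtain ⟨v1, v2⟩ := hV Y a ha hEX b
  set N : ℝ := ((SbS X a b).card : ℝ) with hN
  have hN0 : 0 ≤ N := Nat.cast_nonneg _
  have hVE : (C₁ / Real.log z + 16 * (K + 1) * (Y : ℝ) ^ 4 * W / X) * N ≤
      (C₁ + 1) / Real.log z * N := by
    refine mul_le_mul_of_nonneg_right ?_ hN0
    rw [add_div]
    linarith
  classical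
  set B1 := (SbS X a b).filter fun s => ¬ ND a s with hB1
  set B2 := (SbS X a b).filter fun s => δ < |∑ p ∈ (Ioc z Y).filter Nat.Prime, (locS a s p - 1)| with hB2
  set B3 := (SbS X a b).filter fun s => δ < ∑ p ∈ (Ioc z Y).filter Nat.Prime, (locS a s p - 1) ^ 2 with hB3
  have hsub : (SbS X a b).filter (fun s => ¬ (|singS a s - singPS a s z| ≤ 8 * δ * singPS a s z)) ⊆
      B1 ∪ (B2 ∪ B3) := by
    intro s hs
    rw [mem_filter] at hs
    by_contra hcon
    rw [mem_union, mem_union, not_or, not_or, hB1, hB2, hB3, mem_filter, mem_filter,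
      mem_filter] at hcon
    obtain ⟨c1, c2, c3⟩ := hcon
    have c1' : ND a s := by
      by_contra h
      exact c1 ⟨hs.1, h⟩
    have c2' : |∑ p ∈ (Ioc z Y).filter Nat.Prime, (locS a s p - 1)| ≤ δ := by
      by_contra h
      exact c2 ⟨hs.1, not_le.1 h⟩
    have c3' : ∑ p ∈ (Ioc z Y).filter Nat.Prime, (locS a s p - 1) ^ 2 ≤ δ := by
      by_contra h
      exact c3 ⟨hs.1, not_le.1 h⟩
    have hbd : ∀ i, (a i).natAbs ≤ M ∧ 1 ≤ s i ∧ s i ≤ M := by
      intro i
      have h1 := hs.1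
      unfold SbS at h1
      rw [Fintype.mem_piFinset] at h1
      have h2 := bcl_le (ha i).2 (h1 i)
      exact ⟨(ha i).2.trans hzM', h2.1, h2.2.trans hzM⟩
    exact hs.2 (good_caseS hFAR a s hδ hzY hK ha hM3 hYK hYKL' hYδ hbd c1' c2' c3')
  have hb1 : (B1.card : ℝ) ≤ 1 / Real.log z * N := by
    have h2W : 2 * (W : ℝ) ≤ X := by
      rw [← hR2]
      have h1 : 1 ≤ L ^ 18 := one_le_pow₀ hL1
      nlinarith
    refine (nonND X K h2W a (fun i => (ha i).1) b).trans (mul_le_mul_of_nonneg_right ?_ hN0)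
    have hKL3 : (K : ℝ) ≤ L := by linarith
    calc (K : ℝ) ^ 2 * (2 * W / X) ≤ L ^ 2 * (2 * R / X) := by gcongr
      _ = 2 * L ^ 2 / R := by
        rw [← hR2]
        field_simp
      _ ≤ 1 / L := by
        rw [div_le_div_iff₀ hR0 hL0]
        have := hpw 3 18 (by norm_num)
        have h1 : 0 < L ^ 18 := by positivity
        calc 2 * L ^ 2 * L = 2 * L ^ 3 := by ring
          _ ≤ 1 * R := by linarith
      _ ≤ 1 / Real.log z := one_div_le_one_div_of_le hlogz hlogzL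
  have hb2 : (B2.card : ℝ) ≤ (C₁ + 1) / δ ^ 2 / Real.log z * N := by
    have h1 : (B2.card : ℝ) * δ ^ 2 ≤
        ∑ s ∈ SbS X a b, (∑ p ∈ (Ioc z Y).filter Nat.Prime, (locS a s p - 1)) ^ 2 := by
      calc (B2.card : ℝ) * δ ^ 2 = ∑ _s ∈ B2, δ ^ 2 := by rw [sum_const, nsmul_eq_mul]
        _ ≤ ∑ s ∈ B2, (∑ p ∈ (Ioc z Y).filter Nat.Prime, (locS a s p - 1)) ^ 2 := by
          refine sum_le_sum fun s hs => ?_
          rw [hB2, mem_filter] at hs
          rw [← sq_abs (∑ p ∈ (Ioc z Y).filter Nat.Prime, (locS a s p - 1))]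
          exact pow_le_pow_left₀ hδ0.le hs.2.le 2
        _ ≤ _ := sum_le_sum_of_subset_of_nonneg (filter_subset _ _) fun _ _ _ => sq_nonneg _
    have h2 := h1.trans (v1.trans hVE)
    rw [← le_div_iff₀ (by positivity)] at h2
    refine h2.trans (le_of_eq ?_)
    field_simp
  have hb3 : (B3.card : ℝ) ≤ (C₁ + 1) / δ / Real.log z * N := by
    have h1 : (B3.card : ℝ) * δ ≤
        ∑ s ∈ SbS X a b, ∑ p ∈ (Ioc z Y).filter Nat.Prime, (locS a s p - 1) ^ 2 := by
      calc (B3.card : ℝ) * δ = ∑ _s ∈ B3, δ := by rw [sum_const, nsmul_eq_mul]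
        _ ≤ ∑ s ∈ B3, ∑ p ∈ (Ioc z Y).filter Nat.Prime, (locS a s p - 1) ^ 2 := by
          refine sum_le_sum fun s hs => ?_
          rw [hB3, mem_filter] at hs
          exact hs.2.le
        _ ≤ _ := sum_le_sum_of_subset_of_nonneg (filter_subset _ _) fun _ _ _ =>
          sum_nonneg fun _ _ => sq_nonneg _
    have h2 := h1.trans (v2.trans hVE)
    rw [← le_div_iff₀ hδ0] at h2
    refine h2.trans (le_of_eq ?_)
    field_simp
  have hc : (((SbS X a b).filter fun s => ¬ (|singS a s - singPS a s z| ≤ 8 * δ * singPS a s z)).card : ℝ) ≤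
      B1.card + (B2.card + B3.card) := by
    have h1 := card_le_card hsub
    have h2 := card_union_le B1 (B2 ∪ B3)
    have h3 := card_union_le B2 B3
    exact_mod_cast (show _ ≤ B1.card + (B2.card + B3.card) by omega)
  calc _ ≤ (B1.card : ℝ) + (B2.card + B3.card) := hc
    _ ≤ 1 / Real.log z * N + ((C₁ + 1) / δ ^ 2 / Real.log z * N +
        (C₁ + 1) / δ / Real.log z * N) := by linarith
    _ = _ := by
      field_simp
      ring

/-- **LS-TAILS** -/
theorem t_TAILS : S_TAILS := by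
  intro hVARS hLM hSQ hFAR ε hε
  obtain ⟨C₁, hC₁, hV⟩ := hVARS hLM hSQ
  set δ := min ε 1 / 8 with hδ
  have hδ0 : 0 < δ := by positivity
  have hδ1 : δ ≤ 1 / 8 := by
    rw [hδ]
    have := min_le_right ε 1
    linarith
  have hδε : 8 * δ ≤ ε := by
    rw [hδ]
    have := min_le_left ε 1
    linarith
  have hev : ∀ᶠ x : ℝ in atTop, 262144 * Real.log x ^ 36 ≤ x := by
    have h1 := (Real.isLittleO_pow_log_id_atTop (n := 36)).def (c := 1 / 262144) (by norm_num)
    filter_upwards [h1, eventually_ge_atTop 1] with x hx hx1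
    rw [Real.norm_eq_abs, Real.norm_eq_abs, id, abs_of_nonneg (by linarith : (0 : ℝ) ≤ x),
      abs_of_nonneg (pow_nonneg (Real.log_nonneg hx1) _)] at hx
    linarith
  have hev2 : ∀ᶠ x : ℝ in atTop, 1 / δ ≤ Real.log x :=
    Real.tendsto_log_atTop.eventually_ge_atTop _
  obtain ⟨X₀, hX₀⟩ := (tendsto_natCast_atTop_atTop.eventually (hev.and hev2)).exists_forall_of_atTop
  refine ⟨(C₁ + 1) * (1 / δ ^ 2 + 1 / δ) + 1, X₀ + 3, 2, by positivity, ?_⟩
  intro z X K a hX hz hK ha hzX hW b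
  have h1 := hX₀ X (by omega)
  have h2 := tail_genS hFAR hC₁ hδ0 hδ1 (W := PW z) z X K (fun Y a' ha' hY b' => hV z X Y K a' hz hK ha' hY b')
    (by omega) h1.1 h1.2 hz hK a ha hzX hW b
  refine le_trans ?_ h2
  have h3 : (SbS X a b).filter (fun s => ¬ (|singS a s - singPS a s z| ≤ ε * singPS a s z)) ⊆
      (SbS X a b).filter (fun s => ¬ (|singS a s - singPS a s z| ≤ 8 * δ * singPS a s z)) := by
    intro s hs
    rw [mem_filter] at hs ⊢
    refine ⟨hs.1, fun h => hs.2 (h.trans ?_)⟩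
    have h4 : 0 ≤ singPS a s z := by
      have h5 := (abs_nonneg _).trans h
      by_contra hneg
      push Not at hneg
      nlinarith
    gcongr
  exact_mod_cast card_le_card h3

end Pool.Agent.Q261.LS

theorem Pool.Agent.Q145.LS.t_TAILS : Pool.Agent.Q145.LS.S_TAILS := Pool.Agent.Q261.LS.t_TAILS
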